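import Pool.Agent.U183.EP.Conv

/-!
# Strictly outer actions on II₁ factors without ergodic cocycle perturbations

Every infinite discrete group `G`, in particular every infinite discrete amenable group such as
`ℤ`, has a strictly outer action on a II₁ factor `M` which does not admit any ergodic cocycle
perturbation.

`M = L(Λ)` is the group von Neumann algebra of the restricted power `Λ` of an ICC group
`B ⊇ G` with an index set of cardinality `|G|⁺`, and `G` acts by conjugation in every coordinate. A
cocycle `(v g)` involves at most `|G|` coordinates. If `i` is another coordinate and `c ∈ B` commutes
with `G`, then `c` at the coordinate `i` is a fixed point of the perturbed action.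
-/

set_option autoImplicit false

open Cardinal

namespace Pool.Agent.Results.MP_418a80_an.NoErgodicPerturbation

open Pool.Agent.U183.EQ

/-- Every infinite group `G` has a strictly outer action on a II₁ factor, on a Hilbert space of
dimension `|G|⁺`, no cocycle perturbation of which is ergodic. -/
theorem result (G : Type) [Group G] [Infinite G] : HasExample G (Order.succ #G) :=
  hasExample G

end Pool.Agent.Results.MP_418a80_an.NoErgodicPerturbation
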